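import Pool.Agent.H96.NC.Net

set_option autoImplicit false

/-!
Universally flexible loops: the inverse of `x (y x)` (found by a closure program).
-/

namespace H96NC

namespace NC

universe u

variable {Q : Type u} {M : Q → Q → Q} {e : Q}

theorem saip_y (h : NC M e) (x y : Q) (hy : ∀ w, M y w = M w y) :
    ∃ xi yi yx a ai w, M x xi = e ∧ M y yi = e ∧ M y x = yx ∧ M x yx = a ∧ M a ai = e ∧
      M yi xi = w ∧ M xi w = ai := by
  have f0 : M e e = e := h.one _
  have f1 : M e x = x := h.one _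
  have f2 : M x e = x := h.one' _
  have f3 : M e y = y := h.one _
  have f4 : M y e = y := by rw [hy e]; exact f3
  obtain ⟨p3, f5⟩ := h.surj x e
  have f6 : M e p3 = p3 := h.one _
  have f7 : M p3 e = p3 := h.one' _
  obtain ⟨p4, f8⟩ := h.surj' x e
  have f10 : M p4 e = p4 := h.one' _
  obtain ⟨p5, f11⟩ := h.surj y e
  have f12 : M p5 y = e := by rw [← hy p5]; exact f11
  have f13 : M e p5 = p5 := h.one _
  have f14 : M p5 e = p5 := h.one' _
  have f15 : M p4 e = p3 := h.fig f1 f2 f2 f1 f0 f8 f0 f5 f6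
  have e0 : p4 = p3 := f10.symm.trans f15
  have f16 : M p3 x = e := by rw [e0] at f8; exact f8
  obtain ⟨p6, f17⟩ : ∃ d, M x x = d := ⟨_, rfl⟩
  have f18 : M e p6 = p6 := h.one _
  obtain ⟨p7, f20⟩ : ∃ d, M x y = d := ⟨_, rfl⟩
  have f21 : M y x = p7 := by rw [hy x]; exact f20
  have f22 : M e p7 = p7 := h.one _
  have f23 : M p7 e = p7 := h.one' _
  obtain ⟨p13, f39⟩ := h.surj x p5
  have f40 : M e p13 = p13 := h.one _
  obtain ⟨p17, f52⟩ : ∃ d, M y p3 = d := ⟨_, rfl⟩
  have f53 : M p3 y = p17 := by rw [← hy p3]; exact f52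
  have f54 : M e p17 = p17 := h.one _
  have f55 : M p17 e = p17 := h.one' _
  obtain ⟨p20, f64⟩ := h.surj p3 x
  have f65 : M e p20 = p20 := h.one _
  obtain ⟨p21, f67⟩ := h.surj' p3 x
  have f69 : M p21 e = p21 := h.one' _
  obtain ⟨p25, f79⟩ : ∃ d, M p3 p5 = d := ⟨_, rfl⟩
  have f80 : M e p25 = p25 := h.one _
  have f81 : M p25 e = p25 := h.one' _
  obtain ⟨p26, f82⟩ := h.surj p3 p5
  have f83 : M e p26 = p26 := h.one _
  have f84 : M p26 e = p26 := h.one' _
  obtain ⟨p27, f85⟩ := h.surj' p3 p5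
  have f87 : M p27 e = p27 := h.one' _
  obtain ⟨p33, f103⟩ : ∃ d, M p5 p3 = d := ⟨_, rfl⟩
  have f121 : M x x = p20 := h.fig f0 f16 f16 f0 f1 f2 f1 f64 f65
  have e4 : p20 = p6 := f121.symm.trans f17
  have f122 : M p3 p6 = x := by rw [e4] at f64; exact f64
  have f123 : M p21 e = p6 := h.fig f5 f0 f0 f5 f2 f67 f2 f1 f17
  have e5 : p21 = p6 := f69.symm.trans f123
  have f124 : M p6 p3 = x := by rw [e5] at f67; exact f67
  have f139 : M p5 p3 = p25 := h.fig f53 f52 f21 f20 f16 f12 f5 f11 f79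
  have e11 : p33 = p25 := f103.symm.trans f139
  have f140 : M p5 p3 = p25 := by rw [e11] at f103; exact f103
  have f143 : M p27 e = p26 := h.fig f6 f7 f79 f140 f13 f85 f14 f82 f83
  have e13 : p27 = p26 := f87.symm.trans f143
  have f144 : M p26 p3 = p5 := by rw [e13] at f85; exact f85
  obtain ⟨p38, f152⟩ : ∃ d, M x p7 = d := ⟨_, rfl⟩
  have f153 : M e p38 = p38 := h.one _
  have f154 : M p38 e = p38 := h.one' _
  obtain ⟨p52, f194⟩ : ∃ d, M x p17 = d := ⟨_, rfl⟩
  have f195 : M e p52 = p52 := h.one _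
  have f196 : M p52 e = p52 := h.one' _
  obtain ⟨p53, f197⟩ := h.surj x p17
  have f198 : M e p53 = p53 := h.one _
  have f199 : M p53 e = p53 := h.one' _
  obtain ⟨p76, f266⟩ : ∃ d, M y p6 = d := ⟨_, rfl⟩
  have f267 : M p6 y = p76 := by rw [← hy p6]; exact f266
  obtain ⟨p89, f318⟩ : ∃ d, M y p17 = d := ⟨_, rfl⟩
  have f319 : M p17 y = p89 := by rw [← hy p17]; exact f318
  obtain ⟨p94, f338⟩ : ∃ d, M y p25 = d := ⟨_, rfl⟩
  have f339 : M p25 y = p94 := by rw [← hy p25]; exact f338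
  obtain ⟨p96, f346⟩ : ∃ d, M y p26 = d := ⟨_, rfl⟩
  have f347 : M p26 y = p96 := by rw [← hy p26]; exact f346
  obtain ⟨p104, f376⟩ : ∃ d, M p3 p7 = d := ⟨_, rfl⟩
  have f377 : M e p104 = p104 := h.one _
  have f378 : M p104 e = p104 := h.one' _
  obtain ⟨p132, f460⟩ : ∃ d, M p3 p25 = d := ⟨_, rfl⟩
  have f462 : M p132 e = p132 := h.one' _
  obtain ⟨p155, f529⟩ := h.surj p5 p13
  obtain ⟨p162, f550⟩ : ∃ d, M p5 p17 = d := ⟨_, rfl⟩
  obtain ⟨p172, f580⟩ : ∃ d, M p5 p25 = d := ⟨_, rfl⟩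
  obtain ⟨p174, f586⟩ := h.surj p5 p26
  have f587 : M e p174 = p174 := h.one _
  have f588 : M p174 e = p174 := h.one' _
  obtain ⟨p175, f589⟩ := h.surj' p5 p26
  have f591 : M p175 e = p175 := h.one' _
  obtain ⟨p190, f634⟩ : ∃ d, M p7 x = d := ⟨_, rfl⟩
  obtain ⟨p195, f649⟩ : ∃ d, M p7 p3 = d := ⟨_, rfl⟩
  obtain ⟨p263, f853⟩ : ∃ d, M p17 x = d := ⟨_, rfl⟩
  obtain ⟨p271, f877⟩ : ∃ d, M p17 p5 = d := ⟨_, rfl⟩
  obtain ⟨p311, f997⟩ : ∃ d, M p25 p3 = d := ⟨_, rfl⟩
  obtain ⟨p314, f1006⟩ : ∃ d, M p25 p5 = d := ⟨_, rfl⟩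
  obtain ⟨p315, f1009⟩ := h.surj p25 p5
  obtain ⟨p316, f1012⟩ := h.surj' p25 p5
  have f1105 : M x p17 = p195 := h.figB2 f0 f5 f20 f23 f3 f4 f649 f52 f54
  have e16 : p195 = p52 := f1105.symm.trans f194
  have f1106 : M p7 p3 = p52 := by rw [e16] at f649; exact f649
  have f1123 : M y p25 = p271 := h.figB2 f0 f11 f52 f55 f6 f7 f877 f79 f80
  have e25 : p271 = p94 := f1123.symm.trans f338
  have f1124 : M p17 p5 = p94 := by rw [e25] at f877; exact f877
  have f1141 : M p5 p17 = p94 := h.figB2 f0 f12 f140 f81 f6 f7 f339 f53 f54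
  have e34 : p162 = p94 := f550.symm.trans f1141
  have f1142 : M p5 p17 = p94 := by rw [e34] at f550; exact f550
  have f1147 : M p3 p7 = p263 := h.figB2 f0 f16 f53 f55 f3 f4 f853 f21 f22
  have e37 : p263 = p104 := f1147.symm.trans f376
  have f1148 : M p17 x = p104 := by rw [e37] at f853; exact f853
  have f1196 : M p25 p5 = p172 := h.fig f12 f11 f318 f319 f1142 f339 f1124 f338 f580
  have e60 : p314 = p172 := f1006.symm.trans f1196
  have f1197 : M p25 p5 = p172 := by rw [e60] at f1006; exact f1006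
  have f1224 : M p7 x = p38 := h.fig f2 f1 f3 f4 f20 f23 f21 f22 f152
  have e72 : p190 = p38 := f634.symm.trans f1224
  have f1225 : M p7 x = p38 := by rw [e72] at f634; exact f634
  have f1268 : M p25 p3 = p132 := h.fig f7 f6 f13 f14 f79 f81 f140 f80 f460
  have e85 : p311 = p132 := f997.symm.trans f1268
  have f1269 : M p25 p3 = p132 := by rw [e85] at f997; exact f997
  have f1299 : M p132 p315 = p25 := h.figB f1009 f14 f14 f1009 f81 f462 f81 f140 f1269
  have f1417 : M p316 p5 = p26 := h.fig f80 f79 f79 f80 f13 f1012 f13 f82 f83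
  have e131 : p316 = p175 := h.inj' f1417 f589
  have f1418 : M p175 p25 = p5 := by rw [e131] at f1012; exact f1012
  have f1430 : M p5 p315 = p26 := h.fig2 f140 f81 f81 f140 f14 f144 f14 f1009 f84
  have e136 : p315 = p174 := h.inj f1430 f586
  have f1431 : M p25 p174 = p5 := by rw [e136] at f1009; exact f1009
  have f1432 : M p132 p174 = p25 := by rw [e136] at f1299; exact f1299
  have f1440 : M e p174 = p175 := h.fig f589 f586 f580 f1197 f1418 f13 f1431 f14 f591
  have e139 : p175 = p174 := f1440.symm.trans f587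
  have f1441 : M p174 p5 = p26 := by rw [e139] at f589; exact f589
  have f1443 : M p174 p25 = p5 := by rw [e139] at f1418; exact f1418
  obtain ⟨p398, f1699⟩ : ∃ d, M x p52 = d := ⟨_, rfl⟩
  have f1701 : M p398 e = p398 := h.one' _
  obtain ⟨p399, f1702⟩ := h.surj' x p52
  obtain ⟨p439, f1822⟩ := h.surj x p76
  have f1824 : M p439 e = p439 := h.one' _
  obtain ⟨p440, f1825⟩ := h.surj' x p76
  obtain ⟨p516, f2053⟩ : ∃ d, M x p104 = d := ⟨_, rfl⟩
  obtain ⟨p517, f2056⟩ := h.surj x p104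
  have f2057 : M e p517 = p517 := h.one _
  obtain ⟨p596, f2293⟩ : ∃ d, M x p155 = d := ⟨_, rfl⟩
  obtain ⟨p766, f2829⟩ : ∃ d, M y p38 = d := ⟨_, rfl⟩
  have f2830 : M p38 y = p766 := by rw [← hy p38]; exact f2829
  obtain ⟨p785, f2905⟩ := h.surj y p52
  have f2906 : M p785 y = p52 := by rw [← hy p785]; exact f2905
  have f2908 : M p785 e = p785 := h.one' _
  obtain ⟨p786, f2909⟩ : ∃ d, M y p53 = d := ⟨_, rfl⟩
  have f2910 : M p53 y = p786 := by rw [← hy p53]; exact f2909
  obtain ⟨p916, f3429⟩ : ∃ d, M y p174 = d := ⟨_, rfl⟩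
  have f3430 : M p174 y = p916 := by rw [← hy p174]; exact f3429
  obtain ⟨p1040, f3887⟩ : ∃ d, M p3 p38 = d := ⟨_, rfl⟩
  obtain ⟨p1266, f4565⟩ : ∃ d, M p3 p174 = d := ⟨_, rfl⟩
  have f4567 : M p1266 e = p1266 := h.one' _
  obtain ⟨p1571, f5480⟩ := h.surj p5 p96
  have f5481 : M e p1571 = p1571 := h.one _
  obtain ⟨p1572, f5483⟩ := h.surj' p5 p96
  have f5485 : M p1572 e = p1572 := h.one' _
  obtain ⟨p1882, f6413⟩ : ∃ d, M p7 p13 = d := ⟨_, rfl⟩
  obtain ⟨p2473, f8186⟩ : ∃ d, M p17 p26 = d := ⟨_, rfl⟩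
  obtain ⟨p2865, f9362⟩ : ∃ d, M p26 p17 = d := ⟨_, rfl⟩
  have f9363 : M e p2865 = p2865 := h.one _
  obtain ⟨p4196, f13355⟩ := h.surj p38 e
  have f13356 : M e p4196 = p4196 := h.one _
  obtain ⟨p4197, f13358⟩ := h.surj' p38 e
  have f13360 : M p4197 e = p4197 := h.one' _
  obtain ⟨p4203, f13376⟩ : ∃ d, M p38 p3 = d := ⟨_, rfl⟩
  obtain ⟨p4302, f13673⟩ : ∃ d, M p52 x = d := ⟨_, rfl⟩
  obtain ⟨p4313, f13706⟩ : ∃ d, M p53 x = d := ⟨_, rfl⟩
  obtain ⟨p4843, f15296⟩ : ∃ d, M p104 x = d := ⟨_, rfl⟩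
  obtain ⟨p5010, f15797⟩ := h.surj p132 e
  obtain ⟨p5011, f15800⟩ := h.surj' p132 e
  obtain ⟨p5246, f16505⟩ : ∃ d, M p174 p3 = d := ⟨_, rfl⟩
  have f17954 : M x p52 = p4203 := h.figB2 f0 f5 f152 f154 f22 f23 f13376 f1106 f195
  have e182 : p4203 = p398 := f17954.symm.trans f1699
  have f17955 : M p38 p3 = p398 := by rw [e182] at f13376; exact f13376
  have f18104 : M p174 y = p1571 := h.fig f0 f12 f586 f84 f587 f588 f347 f5480 f5481
  have e257 : p1571 = p916 := f18104.symm.trans f3430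
  have f18105 : M p5 p916 = p96 := by rw [e257] at f5480; exact f5480
  have f18140 : M p3 p38 = p4843 := h.figB2 f0 f16 f376 f378 f22 f23 f15296 f1225 f153
  have e275 : p4843 = p1040 := f18140.symm.trans f3887
  have f18141 : M p104 x = p1040 := by rw [e275] at f15296; exact f15296
  have f18317 : M x p916 = p76 := h.fig2 f5 f12 f14 f144 f2 f124 f347 f18105 f267
  have e353 : p916 = p439 := h.inj f18317 f1822
  have f18318 : M y p174 = p439 := by rw [e353] at f3429; exact f3429
  have f18320 : M p174 y = p439 := by rw [e353] at f3430; exact f3430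
  have f18360 : M p1572 e = p439 := h.fig f11 f0 f83 f1441 f346 f5483 f588 f587 f18318
  have e369 : p1572 = p439 := f5485.symm.trans f18360
  have f18361 : M p439 p5 = p96 := by rw [e369] at f5483; exact f5483
  have f18379 : M p439 x = p76 := h.fig f11 f16 f82 f13 f346 f18361 f1 f122 f266
  have e377 : p440 = p439 := h.inj' f1825 f18379
  have f18380 : M p439 x = p76 := by rw [e377] at f1825; exact f1825
  have f18610 : M p53 x = p517 := h.figB f1 f2 f2056 f1148 f2057 f199 f55 f197 f198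
  have e473 : p4313 = p517 := f13706.symm.trans f18610
  have f18611 : M p53 x = p517 := by rw [e473] at f13706; exact f13706
  have f18666 : M p52 x = p516 := h.fig f2 f1 f54 f55 f194 f196 f1148 f377 f2053
  have e492 : p4302 = p516 := f13673.symm.trans f18666
  have f18667 : M p52 x = p516 := by rw [e492] at f13673; exact f13673
  have f19353 : M p26 p17 = p5246 := h.figB2 f13 f144 f84 f1441 f0 f11 f16505 f52 f54
  have e698 : p5246 = p2865 := f19353.symm.trans f9362
  have f19354 : M p174 p3 = p2865 := by rw [e698] at f16505; exact f16505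
  have f19364 : M x p155 = p1882 := h.figB2 f14 f39 f20 f23 f12 f0 f6413 f40 f529
  have e700 : p1882 = p596 := f19364.symm.trans f2293
  have f19365 : M p7 p13 = p596 := by rw [e700] at f6413; exact f6413
  have f19377 : M p3 p174 = p2473 := h.figB2 f14 f82 f53 f55 f12 f0 f8186 f83 f586
  have e706 : p2473 = p1266 := f19377.symm.trans f4565
  have f19378 : M p17 p26 = p1266 := by rw [e706] at f8186; exact f8186
  have f19472 : M p439 p25 = p2865 := h.figB f1443 f14 f140 f80 f19354 f1824 f0 f12 f18320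
  have f19517 : M y p3 = p517 := h.figB2 f20 f21 f2909 f2910 f197 f53 f18611 f16 f5
  have e745 : p517 = p17 := f19517.symm.trans f52
  have f19518 : M x p17 = p104 := by rw [e745] at f2056; exact f2056
  have e746 : p104 = p52 := f19518.symm.trans f194
  have f19522 : M p17 x = p52 := by rw [e746] at f1148; exact f1148
  have f19523 : M x p52 = p516 := by rw [e746] at f2053; exact f2053
  have f19543 : M p52 x = p1040 := by rw [e746] at f18141; exact f18141
  have e750 : p399 = p17 := h.inj' f1702 f19522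
  have f19580 : M p17 x = p52 := by rw [e750] at f1702; exact f1702
  have e751 : p516 = p398 := f19523.symm.trans f1699
  have f19589 : M p52 x = p398 := by rw [e751] at f18667; exact f18667
  have e769 : p1040 = p398 := f19543.symm.trans f19589
  have f19590 : M p3 p38 = p398 := by rw [e769] at f3887; exact f3887
  have f19895 : M p7 p13 = p785 := h.figB2 f20 f23 f1106 f2906 f5 f12 f2908 f14 f39
  have e944 : p785 = p596 := f19895.symm.trans f19365
  have f19896 : M y p596 = p52 := by rw [e944] at f2905; exact f2905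
  have f19898 : M p596 y = p52 := by rw [e944] at f2906; exact f2906
  have f19923 : M p439 p7 = p766 := h.fig f21 f22 f18 f17 f266 f18380 f152 f153 f2829
  have f20352 : M y p2865 = p52 := h.fig2 f52 f54 f13 f144 f11 f5 f9362 f9363 f194
  have e1140 : p2865 = p596 := h.inj f20352 f19896
  have f20356 : M p439 p25 = p596 := by rw [e1140] at f19472; exact f19472
  have f20442 : M p1266 y = p52 := h.fig f55 f53 f82 f14 f19378 f4567 f12 f16 f19580
  have e1165 : p1266 = p596 := h.inj' f20442 f19898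
  have f20443 : M p3 p174 = p596 := by rw [e1165] at f4565; exact f4565
  have f20867 : M p38 p3 = p439 := h.figB2 f152 f154 f2830 f19923 f20 f22 f1824 f0 f5
  have e1274 : p439 = p398 := f20867.symm.trans f17955
  have f20881 : M p398 p25 = p596 := by rw [e1274] at f20356; exact f20356
  have f20885 : M p4197 e = p4196 := h.fig f153 f154 f154 f153 f0 f13358 f0 f13355 f13356
  have e1275 : p4197 = p4196 := f13360.symm.trans f20885
  have f20886 : M p4196 p38 = e := by rw [e1275] at f13358; exact f13358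
  have f21704 : M p3 p5010 = p398 := h.fig2 f460 f462 f1432 f80 f20443 f20881 f0 f15797 f1701
  have e1504 : p5010 = p38 := h.inj f21704 f19590
  have f21705 : M p132 p38 = e := by rw [e1504] at f15797; exact f15797
  have e1505 : p4196 = p132 := h.inj' f20886 f21705
  have f21706 : M p38 p132 = e := by rw [e1505] at f13355; exact f13355
  have e1506 : p5011 = p38 := h.inj' f15800 f21706
  have f21710 : M p38 p132 = e := by rw [e1506] at f15800; exact f15800
  exact ⟨p3, p5, p7, p38, p132, p25, f5, f11, f21, f152, f21710, f140, f460⟩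

end NC

end H96NC
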