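import Pool.Agent.H96.NC.SaipX
import Pool.Agent.H96.NC.SaipY

set_option autoImplicit false

/-!
Universally flexible loops: the identity `(x (y x))⁻¹ = x⁻¹ (y⁻¹ x⁻¹)` holds if `x` or `y` commutes
with all elements of the subloop generated by `x` and `y`.
-/

namespace H96NC

open H16UFL

universe u

/-- the subloop generated by `x` and `y` -/
def Sub {Q : Type u} [Lp Q] (x y : Q) : Type u := {w : Q // Gen x y w}

instance {Q : Type u} [Lp Q] (x y : Q) : Lp (Sub x y) where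
  mul a b := ⟨a.1 * b.1, Gen.times a.2 b.2⟩
  one := ⟨1, Gen.unit⟩
  div a b := ⟨a.1 / b.1, Gen.over a.2 b.2⟩
  ldiv a b := ⟨ldiv a.1 b.1, Gen.under a.2 b.2⟩
  one_mul' := fun a => Subtype.ext (Lp.one_mul' a.1)
  mul_one' := fun a => Subtype.ext (Lp.mul_one' a.1)
  mul_ldiv := fun a b => Subtype.ext (Lp.mul_ldiv a.1 b.1)
  ldiv_mul := fun a b => Subtype.ext (Lp.ldiv_mul a.1 b.1)
  div_mul' := fun a b => Subtype.ext (Lp.div_mul' a.1 b.1)
  mul_div' := fun a b => Subtype.ext (Lp.mul_div' a.1 b.1)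

theorem uf_sub {Q : Type u} [Lp Q] (hU : UF Q) (x y : Q) : UF (Sub x y) := by
  intro a b s t
  exact Subtype.ext (hU a.1 b.1 s.1 t.1)

theorem iv_eq {Q : Type u} [Lp Q] {s t : Q} (h : s * t = 1) : iv s = t := by
  unfold iv
  rw [← h, Lp.ldiv_mul]

theorem saip_all {Q : Type u} [Lp Q] (hU : UF Q) (x y : Q)
    (h : (∀ w : Q, x * w = w * x) ∨ (∀ w : Q, y * w = w * y)) :
    iv (x * (y * x)) = iv x * (iv y * iv x) := by
  have key : ∃ xi yi yx a ai w : Q, x * xi = 1 ∧ y * yi = 1 ∧ y * x = yx ∧ x * yx = a ∧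
      a * ai = 1 ∧ yi * xi = w ∧ xi * w = ai := by
    rcases h with h | h
    · exact (of_uf hU).saip_x x y h
    · exact (of_uf hU).saip_y x y h
  obtain ⟨xi, yi, yx, a, ai, w, h1, h2, h3, h4, h5, h6, h7⟩ := key
  rw [iv_eq h1, iv_eq h2, h3, h4, iv_eq h5, h6, h7]

theorem saip_gen {Q : Type u} [Lp Q] (hU : UF Q) (x y : Q)
    (h : (∀ w : Q, Gen x y w → x * w = w * x) ∨ (∀ w : Q, Gen x y w → y * w = w * y)) :
    iv (x * (y * x)) = iv x * (iv y * iv x) := by
  have h1 := saip_all (uf_sub hU x y) ⟨x, Gen.fst⟩ ⟨y, Gen.snd⟩ (by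
    rcases h with h | h
    · exact Or.inl fun w => Subtype.ext (h w.1 w.2)
    · exact Or.inr fun w => Subtype.ext (h w.1 w.2))
  exact congrArg Subtype.val h1

end H96NC
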