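import Pool.Agent.H16.UFL.Defs

set_option autoImplicit false

/-!
Universally flexible loops: the closure rules.
-/

namespace H96NC

open H16UFL

universe u

/-- a universally flexible loop, with the closure figure -/
structure NC {Q : Type u} (M : Q → Q → Q) (e : Q) : Prop where
  one : ∀ x, M e x = x
  one' : ∀ x, M x e = x
  surj : ∀ x z, ∃ y, M x y = z
  surj' : ∀ y z, ∃ x, M x y = z
  inj : ∀ {x y y' z : Q}, M x y = z → M x y' = z → y = y'
  inj' : ∀ {x x' y z : Q}, M x y = z → M x' y = z → x = x'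
  fig : ∀ {a b c d s t m n u v w z q : Q}, M c b = z → M a d = z → M a s = u → M t b = u →
    M c s = v → M m b = v → M t d = w → M a n = w → M c n = q → M m d = q

variable {Q : Type u}

theorem of_uf [Lp Q] (hU : UF Q) : NC (fun x y : Q => x * y) 1 where
  one := Lp.one_mul'
  one' := Lp.mul_one'
  surj := fun x z => ⟨ldiv x z, Lp.mul_ldiv x z⟩
  surj' := fun y z => ⟨z / y, Lp.div_mul' y z⟩
  inj := by
    intro x y y' z h1 h2
    change x * y = z at h1
    change x * y' = z at h2
    rw [← Lp.ldiv_mul x y, ← Lp.ldiv_mul x y', h1, h2]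
  inj' := by
    intro x x' y z h1 h2
    change x * y = z at h1
    change x' * y = z at h2
    rw [← Lp.mul_div' y x, ← Lp.mul_div' y x', h1, h2]
  fig := by
    intro a b c d s t m n u v w z q h1 h2 h3 h4 h5 h6 h7 h8 h9
    change c * b = z at h1
    change a * d = z at h2
    change a * s = u at h3
    change t * b = u at h4
    change c * s = v at h5
    change m * b = v at h6
    change t * d = w at h7
    change a * n = w at h8
    change c * n = q at h9
    have h := hU a b z u
    unfold circ at h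
    have k1 : z / b = c := by rw [← h1, Lp.mul_div']
    have k2 : ldiv a z = d := by rw [← h2, Lp.ldiv_mul]
    have k3 : ldiv a u = s := by rw [← h3, Lp.ldiv_mul]
    have k4 : u / b = t := by rw [← h4, Lp.mul_div']
    have k5 : v / b = m := by rw [← h6, Lp.mul_div']
    have k6 : ldiv a w = n := by rw [← h8, Lp.ldiv_mul]
    rw [k1, k2, k3, k4, h5, k5, h7, k6, h9] at h
    exact h.symm

namespace NC

variable {M : Q → Q → Q} {e : Q}

theorem fig2 (h : NC M e) {a b c d s t m n u v w z q : Q} (h1 : M c b = z) (h2 : M a d = z)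
    (h3 : M a s = u) (h4 : M t b = u) (h5 : M c s = v) (h6 : M m b = v) (h7 : M t d = w)
    (h8 : M a n = w) (h9 : M m d = q) : M c n = q := by
  rw [← h9, h.fig h1 h2 h3 h4 h5 h6 h7 h8 rfl]

theorem figB (h : NC M e) {a b c d s t m n u v w z q : Q} (h1 : M c b = z) (h2 : M a d = z)
    (h3 : M a s = u) (h4 : M t b = u) (h5 : M c s = v) (h6 : M m d = q) (h7 : M t d = w)
    (h8 : M a n = w) (h9 : M c n = q) : M m b = v := by
  obtain ⟨m', hm'⟩ := h.surj' b v
  have k := h.fig h1 h2 h3 h4 h5 hm' h7 h8 h9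
  rw [h.inj' h6 k, hm']

theorem figB2 (h : NC M e) {a b c d s t m n u v w z q : Q} (h1 : M c b = z) (h2 : M a d = z)
    (h3 : M a s = u) (h4 : M t b = u) (h5 : M c s = v) (h6 : M m b = v) (h7 : M t d = w)
    (h8 : M m d = q) (h9 : M c n = q) : M a n = w := by
  obtain ⟨n', hn'⟩ := h.surj a w
  have k := h.fig2 h1 h2 h3 h4 h5 h6 h7 hn' h8
  rw [h.inj h9 k, hn']

end NC

end H96NC
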