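import Pool.Agent.H96.NC.Net

set_option autoImplicit false

/-!
Universally flexible loops: the inverse of `x (y x)` (found by a closure program).
-/

namespace H96NC

namespace NC

universe u

variable {Q : Type u} {M : Q → Q → Q} {e : Q}

theorem saip_x (h : NC M e) (x y : Q) (hx : ∀ w, M x w = M w x) :
    ∃ xi yi yx a ai w, M x xi = e ∧ M y yi = e ∧ M y x = yx ∧ M x yx = a ∧ M a ai = e ∧
      M yi xi = w ∧ M xi w = ai := by
  have f0 : M e e = e := h.one _
  have f1 : M e x = x := h.one _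
  have f2 : M x e = x := by rw [hx e]; exact f1
  have f3 : M e y = y := h.one _
  have f4 : M y e = y := h.one' _
  obtain ⟨p3, f5⟩ := h.surj x e
  have f6 : M p3 x = e := by rw [← hx p3]; exact f5
  have f7 : M e p3 = p3 := h.one _
  have f8 : M p3 e = p3 := h.one' _
  obtain ⟨p4, f9⟩ := h.surj y e
  have f10 : M e p4 = p4 := h.one _
  have f11 : M p4 e = p4 := h.one' _
  obtain ⟨p5, f12⟩ := h.surj' y e
  have f14 : M p5 e = p5 := h.one' _
  have f15 : M p5 e = p4 := h.fig f3 f4 f4 f3 f0 f12 f0 f9 f10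
  have e0 : p5 = p4 := f14.symm.trans f15
  have f16 : M p4 y = e := by rw [e0] at f12; exact f12
  obtain ⟨p6, f17⟩ : ∃ d, M x x = d := ⟨_, rfl⟩
  have f18 : M e p6 = p6 := h.one _
  have f19 : M p6 e = p6 := h.one' _
  obtain ⟨p7, f20⟩ : ∃ d, M x y = d := ⟨_, rfl⟩
  have f21 : M y x = p7 := by rw [← hx y]; exact f20
  have f22 : M e p7 = p7 := h.one _
  have f23 : M p7 e = p7 := h.one' _
  obtain ⟨p8, f24⟩ := h.surj x y
  have f25 : M p8 x = y := by rw [← hx p8]; exact f24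
  have f26 : M e p8 = p8 := h.one _
  have f27 : M p8 e = p8 := h.one' _
  obtain ⟨p9, f28⟩ := h.surj x p3
  have f29 : M p9 x = p3 := by rw [← hx p9]; exact f28
  have f30 : M e p9 = p9 := h.one _
  have f31 : M p9 e = p9 := h.one' _
  obtain ⟨p10, f32⟩ : ∃ d, M x p4 = d := ⟨_, rfl⟩
  have f33 : M p4 x = p10 := by rw [← hx p4]; exact f32
  have f34 : M e p10 = p10 := h.one _
  have f35 : M p10 e = p10 := h.one' _
  obtain ⟨p11, f36⟩ := h.surj x p4
  have f37 : M p11 x = p4 := by rw [← hx p11]; exact f36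
  have f38 : M e p11 = p11 := h.one _
  have f39 : M p11 e = p11 := h.one' _
  obtain ⟨p14, f46⟩ : ∃ d, M y y = d := ⟨_, rfl⟩
  have f47 : M e p14 = p14 := h.one _
  obtain ⟨p15, f49⟩ : ∃ d, M y p3 = d := ⟨_, rfl⟩
  have f50 : M e p15 = p15 := h.one _
  have f51 : M p15 e = p15 := h.one' _
  obtain ⟨p16, f52⟩ := h.surj y p3
  have f53 : M e p16 = p16 := h.one _
  obtain ⟨p17, f55⟩ := h.surj' y p3
  have f57 : M p17 e = p17 := h.one' _
  obtain ⟨p18, f58⟩ := h.surj y p4
  have f59 : M e p18 = p18 := h.one _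
  obtain ⟨p19, f61⟩ := h.surj' y p4
  have f63 : M p19 e = p19 := h.one' _
  obtain ⟨p21, f67⟩ := h.surj' p3 x
  have f69 : M p21 e = p21 := h.one' _
  obtain ⟨p22, f70⟩ : ∃ d, M p3 y = d := ⟨_, rfl⟩
  obtain ⟨p25, f79⟩ : ∃ d, M p3 p3 = d := ⟨_, rfl⟩
  obtain ⟨p26, f82⟩ : ∃ d, M p3 p4 = d := ⟨_, rfl⟩
  have f83 : M e p26 = p26 := h.one _
  have f84 : M p26 e = p26 := h.one' _
  obtain ⟨p27, f85⟩ := h.surj p3 p4
  have f86 : M e p27 = p27 := h.one _
  have f87 : M p27 e = p27 := h.one' _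
  obtain ⟨p28, f88⟩ := h.surj' p3 p4
  have f90 : M p28 e = p28 := h.one' _
  obtain ⟨p31, f97⟩ := h.surj p4 y
  have f98 : M e p31 = p31 := h.one _
  obtain ⟨p32, f100⟩ := h.surj' p4 y
  have f102 : M p32 e = p32 := h.one' _
  obtain ⟨p33, f103⟩ : ∃ d, M p4 p3 = d := ⟨_, rfl⟩
  obtain ⟨p34, f106⟩ := h.surj p4 p3
  have f107 : M e p34 = p34 := h.one _
  obtain ⟨p35, f109⟩ := h.surj' p4 p3
  have f111 : M p35 e = p35 := h.one' _
  obtain ⟨p36, f112⟩ : ∃ d, M p4 p4 = d := ⟨_, rfl⟩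
  have f115 : M p3 p3 = p9 := h.fig f0 f5 f5 f0 f7 f8 f7 f28 f30
  have e1 : p25 = p9 := f79.symm.trans f115
  have f116 : M p3 p3 = p9 := by rw [e1] at f79; exact f79
  have f119 : M p4 p4 = p18 := h.fig f0 f9 f9 f0 f10 f11 f10 f58 f59
  have e3 : p36 = p18 := f112.symm.trans f119
  have f120 : M p4 p4 = p18 := by rw [e3] at f112; exact f112
  have f121 : M y y = p31 := h.fig f0 f16 f16 f0 f3 f4 f3 f97 f98
  have e4 : p31 = p14 := f121.symm.trans f46
  have f122 : M p4 p14 = y := by rw [e4] at f97; exact f97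
  have f123 : M p21 e = p6 := h.fig f5 f0 f0 f5 f2 f67 f2 f1 f17
  have e5 : p21 = p6 := f69.symm.trans f123
  have f124 : M p6 p3 = x := by rw [e5] at f67; exact f67
  have f125 : M p32 e = p14 := h.fig f9 f0 f0 f9 f4 f100 f4 f3 f46
  have e6 : p32 = p14 := f102.symm.trans f125
  have f126 : M p14 p4 = y := by rw [e6] at f100; exact f100
  have f127 : M p19 e = p18 := h.fig f16 f0 f0 f16 f11 f61 f11 f10 f120
  have e7 : p19 = p18 := f63.symm.trans f127
  have f128 : M p18 y = p4 := by rw [e7] at f61; exact f61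
  have f131 : M p9 p6 = e := h.figB2 f7 f29 f31 f116 f0 f5 f6 f17 f18
  have f132 : M p6 p9 = e := h.figB f28 f7 f7 f28 f5 f124 f5 f0 f2
  have f135 : M p14 p18 = e := h.figB f58 f10 f10 f58 f9 f126 f9 f0 f4
  have f136 : M p3 y = p15 := h.fig f21 f20 f32 f33 f9 f6 f16 f5 f49
  have e10 : p22 = p15 := f70.symm.trans f136
  have f137 : M p3 y = p15 := by rw [e10] at f70; exact f70
  have f138 : M p3 p4 = p33 := h.fig f33 f32 f20 f21 f16 f6 f9 f5 f103
  have e11 : p33 = p26 := f138.symm.trans f82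
  have f139 : M p4 p3 = p26 := by rw [e11] at f103; exact f103
  have f140 : M p18 p14 = e := h.figB f47 f46 f4 f122 f0 f128 f16 f9 f10
  have f141 : M p17 e = p16 := h.fig f3 f4 f49 f137 f7 f55 f8 f52 f53
  have e12 : p17 = p16 := f57.symm.trans f141
  have f142 : M p16 y = p3 := by rw [e12] at f55; exact f55
  have f143 : M p28 e = p27 := h.fig f7 f8 f82 f139 f10 f88 f11 f85 f86
  have e13 : p28 = p27 := f90.symm.trans f143
  have f144 : M p27 p3 = p4 := by rw [e13] at f88; exact f88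
  have f147 : M p35 e = p34 := h.fig f10 f11 f139 f82 f7 f109 f8 f106 f107
  have e15 : p35 = p34 := f111.symm.trans f147
  have f148 : M p34 p4 = p3 := by rw [e15] at f109; exact f109
  obtain ⟨p38, f153⟩ : ∃ d, M x p7 = d := ⟨_, rfl⟩
  have f154 : M p7 x = p38 := by rw [← hx p7]; exact f153
  have f155 : M e p38 = p38 := h.one _
  have f156 : M p38 e = p38 := h.one' _
  obtain ⟨p41, f165⟩ : ∃ d, M x p10 = d := ⟨_, rfl⟩
  have f166 : M p10 x = p41 := by rw [← hx p10]; exact f165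
  obtain ⟨p45, f181⟩ : ∃ d, M x p14 = d := ⟨_, rfl⟩
  have f182 : M p14 x = p45 := by rw [← hx p14]; exact f181
  obtain ⟨p47, f189⟩ : ∃ d, M x p15 = d := ⟨_, rfl⟩
  have f190 : M p15 x = p47 := by rw [← hx p15]; exact f189
  have f192 : M p47 e = p47 := h.one' _
  obtain ⟨p49, f197⟩ : ∃ d, M x p16 = d := ⟨_, rfl⟩
  have f198 : M p16 x = p49 := by rw [← hx p16]; exact f197
  obtain ⟨p51, f205⟩ : ∃ d, M x p18 = d := ⟨_, rfl⟩
  have f206 : M p18 x = p51 := by rw [← hx p18]; exact f205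
  obtain ⟨p55, f221⟩ : ∃ d, M x p26 = d := ⟨_, rfl⟩
  have f222 : M p26 x = p55 := by rw [← hx p26]; exact f221
  obtain ⟨p61, f245⟩ : ∃ d, M x p34 = d := ⟨_, rfl⟩
  have f246 : M p34 x = p61 := by rw [← hx p34]; exact f245
  obtain ⟨p63, f253⟩ : ∃ d, M y p6 = d := ⟨_, rfl⟩
  obtain ⟨p66, f262⟩ : ∃ d, M y p7 = d := ⟨_, rfl⟩
  obtain ⟨p68, f268⟩ := h.surj y p8
  have f269 : M e p68 = p68 := h.one _
  obtain ⟨p69, f271⟩ := h.surj' y p8
  have f273 : M p69 e = p69 := h.one' _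
  obtain ⟨p70, f274⟩ : ∃ d, M y p9 = d := ⟨_, rfl⟩
  obtain ⟨p93, f343⟩ : ∃ d, M y p27 = d := ⟨_, rfl⟩
  obtain ⟨p104, f376⟩ : ∃ d, M p3 p7 = d := ⟨_, rfl⟩
  obtain ⟨p111, f397⟩ : ∃ d, M p3 p10 = d := ⟨_, rfl⟩
  obtain ⟨p127, f445⟩ : ∃ d, M p3 p18 = d := ⟨_, rfl⟩
  obtain ⟨p132, f460⟩ : ∃ d, M p3 p26 = d := ⟨_, rfl⟩
  have f462 : M p132 e = p132 := h.one' _
  obtain ⟨p150, f514⟩ : ∃ d, M p4 p9 = d := ⟨_, rfl⟩
  obtain ⟨p153, f523⟩ : ∃ d, M p4 p10 = d := ⟨_, rfl⟩
  obtain ⟨p155, f529⟩ := h.surj p4 p11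
  have f530 : M e p155 = p155 := h.one _
  obtain ⟨p156, f532⟩ := h.surj' p4 p11
  have f534 : M p156 e = p156 := h.one' _
  obtain ⟨p172, f580⟩ : ∃ d, M p4 p26 = d := ⟨_, rfl⟩
  obtain ⟨p174, f586⟩ := h.surj p4 p27
  have f587 : M e p174 = p174 := h.one _
  have f588 : M p174 e = p174 := h.one' _
  obtain ⟨p175, f589⟩ := h.surj' p4 p27
  have f591 : M p175 e = p175 := h.one' _
  obtain ⟨p180, f604⟩ : ∃ d, M p6 y = d := ⟨_, rfl⟩
  obtain ⟨p192, f640⟩ : ∃ d, M p7 y = d := ⟨_, rfl⟩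
  obtain ⟨p193, f643⟩ := h.surj p7 y
  obtain ⟨p194, f646⟩ := h.surj' p7 y
  obtain ⟨p195, f649⟩ : ∃ d, M p7 p3 = d := ⟨_, rfl⟩
  obtain ⟨p214, f706⟩ : ∃ d, M p9 y = d := ⟨_, rfl⟩
  obtain ⟨p218, f718⟩ : ∃ d, M p9 p4 = d := ⟨_, rfl⟩
  obtain ⟨p228, f748⟩ : ∃ d, M p10 p3 = d := ⟨_, rfl⟩
  obtain ⟨p231, f757⟩ : ∃ d, M p10 p4 = d := ⟨_, rfl⟩
  obtain ⟨p232, f760⟩ := h.surj p10 p4
  obtain ⟨p233, f763⟩ := h.surj' p10 p4
  obtain ⟨p290, f934⟩ : ∃ d, M p18 p3 = d := ⟨_, rfl⟩
  obtain ⟨p311, f997⟩ : ∃ d, M p26 p3 = d := ⟨_, rfl⟩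
  obtain ⟨p314, f1006⟩ : ∃ d, M p26 p4 = d := ⟨_, rfl⟩
  obtain ⟨p315, f1009⟩ := h.surj p26 p4
  obtain ⟨p316, f1012⟩ := h.surj' p26 p4
  obtain ⟨p321, f1027⟩ : ∃ d, M p27 y = d := ⟨_, rfl⟩
  have f1105 : M x p15 = p195 := h.figB2 f0 f5 f20 f23 f3 f4 f649 f49 f50
  have e16 : p195 = p47 := f1105.symm.trans f189
  have f1106 : M p7 p3 = p47 := by rw [e16] at f649; exact f649
  have f1111 : M x p26 = p228 := h.figB2 f0 f5 f32 f35 f10 f11 f748 f139 f83
  have e19 : p228 = p55 := f1111.symm.trans f221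
  have f1112 : M p10 p3 = p55 := by rw [e19] at f748; exact f748
  have f1121 : M p3 p10 = p55 := h.figB2 f0 f6 f82 f84 f10 f11 f222 f33 f34
  have e24 : p111 = p55 := f397.symm.trans f1121
  have f1122 : M p3 p10 = p55 := by rw [e24] at f397; exact f397
  have f1127 : M p3 p7 = p47 := h.figB2 f0 f6 f137 f51 f3 f4 f190 f21 f22
  have e27 : p104 = p47 := f376.symm.trans f1127
  have f1128 : M p3 p7 = p47 := by rw [e27] at f376; exact f376
  have f1184 : M p26 p3 = p132 := h.fig f6 f5 f165 f166 f1122 f222 f1112 f221 f460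
  have e55 : p311 = p132 := f997.symm.trans f1184
  have f1185 : M p26 p3 = p132 := by rw [e55] at f997; exact f997
  have f1239 : M p194 p38 = p7 := h.figB2 f3 f646 f646 f3 f22 f20 f22 f153 f155
  have f1241 : M p7 y = p66 := h.fig f4 f3 f1 f2 f21 f23 f20 f22 f262
  have e76 : p192 = p66 := f640.symm.trans f1241
  have f1242 : M p7 y = p66 := by rw [e76] at f640; exact f640
  have f1252 : M p38 p193 = p7 := h.figB f643 f4 f4 f643 f23 f156 f23 f21 f154
  have f1289 : M p10 p4 = p153 := h.fig f11 f10 f1 f2 f33 f35 f32 f34 f523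
  have e90 : p231 = p153 := f757.symm.trans f1289
  have f1290 : M p10 p4 = p153 := by rw [e90] at f757; exact f757
  have f1292 : M p26 p4 = p172 := h.fig f11 f10 f7 f8 f139 f84 f82 f83 f580
  have e91 : p314 = p172 := f1006.symm.trans f1292
  have f1293 : M p26 p4 = p172 := by rw [e91] at f1006; exact f1006
  have f1302 : M p132 p315 = p26 := h.figB f1009 f11 f11 f1009 f84 f462 f84 f139 f1185
  have f1313 : M p9 y = p70 := h.fig f21 f20 f197 f198 f52 f29 f142 f28 f274
  have e96 : p214 = p70 := f706.symm.trans f1313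
  have f1314 : M p9 y = p70 := by rw [e96] at f706; exact f706
  have f1317 : M y p193 = p8 := h.fig2 f21 f23 f23 f21 f4 f25 f4 f643 f27
  have e98 : p193 = p68 := h.inj f1317 f268
  have f1318 : M p7 p68 = y := by rw [e98] at f643; exact f643
  have f1319 : M p38 p68 = p7 := by rw [e98] at f1252; exact f1252
  have f1320 : M p194 y = p8 := h.fig f22 f20 f20 f22 f3 f646 f3 f24 f26
  have e99 : p194 = p69 := h.inj' f1320 f271
  have f1321 : M p69 p7 = y := by rw [e99] at f646; exact f646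
  have f1322 : M p69 p38 = p7 := by rw [e99] at f1239; exact f1239
  have f1331 : M e p68 = p69 := h.fig f271 f268 f262 f1242 f1321 f3 f1318 f4 f273
  have e103 : p69 = p68 := f1331.symm.trans f269
  have f1332 : M p68 y = p8 := by rw [e103] at f271; exact f271
  have f1335 : M p68 p38 = p7 := by rw [e103] at f1322; exact f1322
  have f1350 : M p9 p4 = p150 := h.fig f33 f32 f245 f246 f106 f29 f148 f28 f514
  have e107 : p218 = p150 := f718.symm.trans f1350
  have f1351 : M p9 p4 = p150 := by rw [e107] at f718; exact f718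
  have f1352 : M p4 p232 = p11 := h.fig2 f33 f35 f35 f33 f11 f37 f11 f760 f39
  have e108 : p232 = p155 := h.inj f1352 f529
  have f1353 : M p10 p155 = p4 := by rw [e108] at f760; exact f760
  have f1356 : M p233 p4 = p11 := h.fig f34 f32 f32 f34 f10 f763 f10 f36 f38
  have e109 : p233 = p156 := h.inj' f1356 f532
  have f1357 : M p156 p10 = p4 := by rw [e109] at f763; exact f763
  have f1367 : M e p155 = p156 := h.fig f532 f529 f523 f1290 f1357 f10 f1353 f11 f534
  have e113 : p156 = p155 := f1367.symm.trans f530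
  have f1368 : M p155 p4 = p11 := by rw [e113] at f532; exact f532
  have f1428 : M p316 p4 = p27 := h.fig f83 f82 f82 f83 f10 f1012 f10 f85 f86
  have e133 : p316 = p175 := h.inj' f1428 f589
  have f1429 : M p175 p26 = p4 := by rw [e133] at f1012; exact f1012
  have f1441 : M p4 p315 = p27 := h.fig2 f139 f84 f84 f139 f11 f144 f11 f1009 f87
  have e138 : p315 = p174 := h.inj f1441 f586
  have f1442 : M p26 p174 = p4 := by rw [e138] at f1009; exact f1009
  have f1443 : M p132 p174 = p26 := by rw [e138] at f1302; exact f1302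
  have f1450 : M e p174 = p175 := h.fig f589 f586 f580 f1293 f1429 f10 f1442 f11 f591
  have e141 : p175 = p174 := f1450.symm.trans f587
  have f1451 : M p174 p4 = p27 := by rw [e141] at f589; exact f589
  have f1453 : M p174 p26 = p4 := by rw [e141] at f1429; exact f1429
  have f1468 : M p3 p18 = p290 := h.fig f206 f205 f181 f182 f140 f6 f135 f5 f934
  have e147 : p290 = p127 := f1468.symm.trans f445
  have f1469 : M p18 p3 = p127 := by rw [e147] at f934; exact f934
  have f1509 : M p27 y = p93 := h.fig f49 f137 f445 f1469 f58 f144 f128 f85 f343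
  have e163 : p321 = p93 := f1027.symm.trans f1509
  have f1510 : M p27 y = p93 := by rw [e163] at f1027; exact f1027
  have f1515 : M p6 y = p63 := h.fig f274 f1314 f1351 f514 f9 f132 f16 f131 f253
  have e166 : p180 = p63 := f604.symm.trans f1515
  have f1516 : M p6 y = p63 := by rw [e166] at f604; exact f604
  obtain ⟨p381, f1685⟩ : ∃ d, M x p47 = d := ⟨_, rfl⟩
  have f1686 : M p47 x = p381 := by rw [← hx p47]; exact f1685
  have f1687 : M e p381 = p381 := h.one _
  have f1688 : M p381 e = p381 := h.one' _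
  obtain ⟨p398, f1753⟩ := h.surj x p63
  have f1756 : M p398 e = p398 := h.one' _
  obtain ⟨p405, f1781⟩ : ∃ d, M x p68 = d := ⟨_, rfl⟩
  have f1782 : M p68 x = p405 := by rw [← hx p68]; exact f1781
  obtain ⟨p509, f2197⟩ : ∃ d, M x p155 = d := ⟨_, rfl⟩
  have f2198 : M p155 x = p509 := by rw [← hx p155]; exact f2197
  have f2199 : M e p509 = p509 := h.one _
  obtain ⟨p648, f2714⟩ : ∃ d, M y p38 = d := ⟨_, rfl⟩
  obtain ⟨p676, f2798⟩ := h.surj y p47
  obtain ⟨p677, f2801⟩ := h.surj' y p47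
  have f2803 : M p677 e = p677 := h.one' _
  obtain ⟨p1040, f3890⟩ : ∃ d, M p3 p38 = d := ⟨_, rfl⟩
  obtain ⟨p1266, f4568⟩ : ∃ d, M p3 p174 = d := ⟨_, rfl⟩
  have f4570 : M p1266 e = p1266 := h.one' _
  obtain ⟨p1567, f5471⟩ := h.surj p4 p93
  have f5472 : M e p1567 = p1567 := h.one _
  obtain ⟨p1882, f6416⟩ : ∃ d, M p7 p11 = d := ⟨_, rfl⟩
  obtain ⟨p2196, f7358⟩ : ∃ d, M p11 p7 = d := ⟨_, rfl⟩
  obtain ⟨p2473, f8189⟩ : ∃ d, M p15 p27 = d := ⟨_, rfl⟩
  obtain ⟨p2865, f9365⟩ : ∃ d, M p27 p15 = d := ⟨_, rfl⟩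
  have f9366 : M e p2865 = p2865 := h.one _
  obtain ⟨p4196, f13358⟩ := h.surj p38 e
  have f13359 : M e p4196 = p4196 := h.one _
  obtain ⟨p4197, f13361⟩ := h.surj' p38 e
  have f13363 : M p4197 e = p4197 := h.one' _
  obtain ⟨p4200, f13370⟩ : ∃ d, M p38 y = d := ⟨_, rfl⟩
  obtain ⟨p4962, f15656⟩ := h.surj p132 e
  obtain ⟨p4963, f15659⟩ := h.surj' p132 e
  obtain ⟨p5243, f16499⟩ : ∃ d, M p174 y = d := ⟨_, rfl⟩
  obtain ⟨p5246, f16508⟩ : ∃ d, M p174 p3 = d := ⟨_, rfl⟩
  have f18059 : M p3 p38 = p381 := h.figB2 f0 f6 f1128 f192 f22 f23 f1686 f154 f155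
  have e233 : p1040 = p381 := f3890.symm.trans f18059
  have f18060 : M p3 p38 = p381 := by rw [e233] at f3890; exact f3890
  have f18177 : M p174 y = p1567 := h.fig f0 f16 f586 f87 f587 f588 f1510 f5471 f5472
  have e292 : p5243 = p1567 := f16499.symm.trans f18177
  have f18178 : M p174 y = p1567 := by rw [e292] at f16499; exact f16499
  have f18314 : M x p1567 = p63 := h.fig2 f5 f16 f11 f144 f2 f124 f1510 f5471 f1516
  have e352 : p1567 = p398 := h.inj f18314 f1753
  have f18316 : M p174 y = p398 := by rw [e352] at f18178; exact f18178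
  have f19263 : M p11 p7 = p509 := h.figB2 f10 f37 f39 f1368 f0 f9 f2198 f21 f22
  have e665 : p2196 = p509 := f7358.symm.trans f19263
  have f19264 : M p11 p7 = p509 := by rw [e665] at f7358; exact f7358
  have f19286 : M p27 p15 = p5246 := h.figB2 f10 f144 f87 f1451 f0 f9 f16508 f49 f50
  have e672 : p5246 = p2865 := f19286.symm.trans f9365
  have f19287 : M p174 p3 = p2865 := by rw [e672] at f16508; exact f16508
  have f19322 : M x p155 = p1882 := h.figB2 f11 f36 f20 f23 f16 f0 f6416 f38 f529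
  have e685 : p1882 = p509 := f19322.symm.trans f2197
  have f19323 : M p7 p11 = p509 := by rw [e685] at f6416; exact f6416
  have f19346 : M p3 p174 = p2473 := h.figB2 f11 f85 f137 f51 f16 f0 f8189 f86 f586
  have e692 : p2473 = p1266 := f19346.symm.trans f4568
  have f19347 : M p15 p27 = p1266 := by rw [e692] at f8189; exact f8189
  have f19468 : M p398 p26 = p2865 := h.figB f1453 f11 f139 f83 f19287 f1756 f0 f16 f18316
  have f19854 : M p7 p11 = p677 := h.figB2 f20 f23 f1106 f2801 f5 f16 f2803 f11 f36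
  have e934 : p677 = p509 := f19854.symm.trans f19323
  have f19855 : M p509 y = p47 := by rw [e934] at f2801; exact f2801
  have f19909 : M y p509 = p47 := h.fig2 f21 f22 f10 f37 f9 f6 f19264 f2199 f1128
  have e953 : p676 = p509 := h.inj f2798 f19909
  have f19910 : M y p509 = p47 := by rw [e953] at f2798; exact f2798
  have f19978 : M p7 p398 = p4200 := h.fig2 f23 f20 f17 f19 f154 f156 f1516 f1753 f13370
  have f20028 : M p38 y = p648 := h.fig f268 f1332 f1782 f1781 f21 f1319 f20 f1335 f2714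
  have e1002 : p4200 = p648 := f13370.symm.trans f20028
  have f20030 : M p7 p398 = p648 := by rw [e1002] at f19978; exact f19978
  have f20316 : M y p2865 = p47 := h.fig2 f49 f50 f10 f144 f9 f5 f9365 f9366 f189
  have e1100 : p2865 = p509 := h.inj f20316 f19910
  have f20320 : M p398 p26 = p509 := by rw [e1100] at f19468; exact f19468
  have f20401 : M p1266 y = p47 := h.fig f51 f137 f85 f11 f19347 f4570 f16 f6 f190
  have e1138 : p1266 = p509 := h.inj' f20401 f19855
  have f20402 : M p3 p174 = p509 := by rw [e1138] at f4568; exact f4568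
  have f20861 : M p7 p381 = p648 := h.fig2 f154 f155 f0 f6 f23 f21 f18060 f1687 f2714
  have e1276 : p398 = p381 := h.inj f20030 f20861
  have f20875 : M p381 p26 = p509 := by rw [e1276] at f20320; exact f20320
  have f20882 : M p4197 e = p4196 := h.fig f155 f156 f156 f155 f0 f13361 f0 f13358 f13359
  have e1278 : p4197 = p4196 := f13363.symm.trans f20882
  have f20883 : M p4196 p38 = e := by rw [e1278] at f13361; exact f13361
  have f21734 : M p3 p4962 = p381 := h.fig2 f460 f462 f1443 f83 f20402 f20875 f0 f15656 f1688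
  have e1516 : p4962 = p38 := h.inj f21734 f18060
  have f21735 : M p132 p38 = e := by rw [e1516] at f15656; exact f15656
  have e1517 : p4196 = p132 := h.inj' f20883 f21735
  have f21736 : M p38 p132 = e := by rw [e1517] at f13358; exact f13358
  have e1518 : p4963 = p38 := h.inj' f15659 f21736
  have f21740 : M p38 p132 = e := by rw [e1518] at f15659; exact f15659
  exact ⟨p3, p4, p7, p38, p132, p26, f5, f9, f21, f153, f21740, f139, f460⟩

end NC

end H96NC
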